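import Mathlib

open Filter Topology
open scoped ZeroAtInfty ENNReal

noncomputable section

namespace Pool.Agent.Lib.MP_7c844e_an

abbrev E := ℝ × C₀(ℕ, ℝ)
abbrev H := lp (fun _ : ℕ => ℝ) 2

lemma abs_apply_le (v : C₀(ℕ, ℝ)) (k : ℕ) : |v k| ≤ ‖v‖ := by
  have := v.toBCF.norm_coe_le_norm k
  simpa using this

lemma norm_le_of (v : C₀(ℕ, ℝ)) {C : ℝ} (hC : 0 ≤ C) (h : ∀ k, |v k| ≤ C) : ‖v‖ ≤ C := by
  rw [← ZeroAtInftyContinuousMap.norm_toBCF_eq_norm, BoundedContinuousFunction.norm_le hC]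
  intro k
  simpa using h k

lemma tendsto_apply (v : C₀(ℕ, ℝ)) : Tendsto v atTop (𝓝 0) := by
  have := v.zero_at_infty'
  rwa [Filter.cocompact_eq_cofinite, Nat.cofinite_eq_atTop] at this

def tf (y : E) : ℕ → ℝ
  | 0 => y.1
  | k + 1 => (1 / 2) ^ k * y.2 k

lemma tf_bound (y : E) (k : ℕ) : |tf y k| ≤ 2 * ‖y‖ * (1 / 2) ^ k := by
  cases k with
  | zero =>
    have : |y.1| ≤ ‖y‖ := norm_fst_le y
    simp only [tf, pow_zero]
    linarith [norm_nonneg y]
  | succ k =>
    have h1 : |y.2 k| ≤ ‖y‖ := (abs_apply_le y.2 k).trans (norm_snd_le y)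
    simp only [tf, abs_mul, abs_pow]
    rw [abs_of_pos (by norm_num : (0 : ℝ) < 1 / 2), pow_succ]
    have : (0 : ℝ) < (1 / 2) ^ k := by positivity
    nlinarith

lemma tf_sum (y : E) (s : Finset ℕ) :
    ∑ i ∈ s, ‖tf y i‖ ^ (2 : ℝ≥0∞).toReal ≤ (3 * ‖y‖) ^ (2 : ℝ≥0∞).toReal := by
  simp only [ENNReal.toReal_ofNat, Real.rpow_ofNat, Real.norm_eq_abs]
  have h1 : ∀ i ∈ s, |tf y i| ^ 2 ≤ 4 * ‖y‖ ^ 2 * (1 / 2) ^ i := by
    intro i _
    have h := tf_bound y i
    have h0 : 0 ≤ |tf y i| := abs_nonneg _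
    have h2 : (0 : ℝ) < (1 / 2) ^ i := by positivity
    have h3 : ((1 : ℝ) / 2) ^ i ≤ 1 := pow_le_one₀ (by norm_num) (by norm_num)
    calc |tf y i| ^ 2 ≤ (2 * ‖y‖ * (1 / 2) ^ i) ^ 2 := by gcongr
      _ = 4 * ‖y‖ ^ 2 * (1 / 2) ^ i * (1 / 2) ^ i := by ring
      _ ≤ 4 * ‖y‖ ^ 2 * (1 / 2) ^ i * 1 := by gcongr
      _ = _ := by ring
  have h2 : ∑ i ∈ s, ((1 : ℝ) / 2) ^ i ≤ 2 := by
    have := summable_geometric_two.sum_le_tsum s (fun i _ => by positivity)
    rwa [tsum_geometric_two] at this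
  calc ∑ i ∈ s, |tf y i| ^ 2 ≤ ∑ i ∈ s, 4 * ‖y‖ ^ 2 * (1 / 2) ^ i := Finset.sum_le_sum h1
    _ = 4 * ‖y‖ ^ 2 * ∑ i ∈ s, ((1 : ℝ) / 2) ^ i := by rw [Finset.mul_sum]
    _ ≤ 4 * ‖y‖ ^ 2 * 2 := by gcongr
    _ ≤ (3 * ‖y‖) ^ 2 := by nlinarith [sq_nonneg ‖y‖]

def T : E →ₗ[ℝ] H where
  toFun y := ⟨tf y, memℓp_gen' (tf_sum y)⟩
  map_add' y z := by
    ext k
    change tf (y + z) k = tf y k + tf z k
    cases k with
    | zero => simp [tf]
    | succ k => simp [tf, mul_add]
  map_smul' c y := by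
    ext k
    cases k with
    | zero => simp [tf]
    | succ k => simp [tf]; ring

lemma T_apply (y : E) (k : ℕ) : T y k = tf y k := rfl

lemma norm_T_le (y : E) : ‖T y‖ ≤ 3 * ‖y‖ :=
  lp.norm_le_of_forall_sum_le (by simp) (by positivity) (tf_sum y)

lemma fst_le_T (y : E) : |y.1| ≤ ‖T y‖ :=
  lp.norm_apply_le_norm (by simp) (T y) 0

lemma snd_zero_le_T (y : E) : |y.2 0| ≤ ‖T y‖ := by
  have := lp.norm_apply_le_norm (by simp) (T y) 1
  simpa [T_apply, tf] using this

lemma T_injective : Function.Injective T := by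
  intro y z h
  have h' : ∀ k, tf y k = tf z k := fun k => by rw [← T_apply, ← T_apply, h]
  refine Prod.ext (h' 0) ?_
  ext k
  have := h' (k + 1)
  simpa [tf] using this

def eps (n : ℕ) : ℝ := 1 / ((n : ℝ) + 1)

lemma eps_pos (n : ℕ) : 0 < eps n := by unfold eps; positivity

lemma eps_le_one (n : ℕ) : eps n ≤ 1 := by
  unfold eps
  rw [div_le_one (by positivity)]
  have : (0 : ℝ) ≤ n := Nat.cast_nonneg n
  linarith

lemma eps_zero : eps 0 = 1 := by simp [eps]

lemma eps_succ (n : ℕ) : eps (n + 1) ≤ 1 / 2 := by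
  unfold eps
  apply one_div_le_one_div_of_le (by norm_num)
  have : (0 : ℝ) ≤ n := Nat.cast_nonneg n
  push_cast
  linarith

lemma eps_tendsto : Tendsto eps atTop (𝓝 0) := tendsto_one_div_add_atTop_nhds_zero_nat

def N (n : ℕ) (y : E) : ℝ := (1 - eps n) * |y.1 + y.2 n| + eps n * ‖T y‖

lemma N_zero (y : E) : N 0 y = ‖T y‖ := by simp [N, eps_zero]

lemma N_nonneg (n : ℕ) (y : E) : 0 ≤ N n y := by
  have := eps_pos n
  have := eps_le_one n
  unfold N
  have h : 0 ≤ 1 - eps n := by linarith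
  positivity

lemma N_le (n : ℕ) (y : E) : N n y ≤ 3 * ‖y‖ := by
  have h1 := eps_pos n
  have h2 := eps_le_one n
  have h3 : |y.1 + y.2 n| ≤ 3 * ‖y‖ := by
    have a1 : |y.1| ≤ ‖y‖ := norm_fst_le y
    have a2 : |y.2 n| ≤ ‖y‖ := (abs_apply_le y.2 n).trans (norm_snd_le y)
    have a3 := abs_add_le y.1 (y.2 n)
    linarith [norm_nonneg y]
  have h4 := norm_T_le y
  unfold N
  nlinarith

lemma coord_add (n : ℕ) (y z : E) :
    |(y + z).1 + (y + z).2 n| ≤ |y.1 + y.2 n| + |z.1 + z.2 n| := by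
  have : (y + z).1 + (y + z).2 n = (y.1 + y.2 n) + (z.1 + z.2 n) := by
    simp only [Prod.fst_add, Prod.snd_add, ZeroAtInftyContinuousMap.add_apply]; ring
  rw [this]
  exact abs_add_le _ _

lemma N_add (n : ℕ) (y z : E) : N n (y + z) ≤ N n y + N n z := by
  have h1 := eps_pos n
  have h2 := eps_le_one n
  have h3 := coord_add n y z
  have h4 : ‖T (y + z)‖ ≤ ‖T y‖ + ‖T z‖ := by rw [map_add]; exact norm_add_le _ _
  unfold N
  nlinarith

lemma N_smul (n : ℕ) (c : ℝ) (y : E) : N n (c • y) = |c| * N n y := by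
  have : (c • y).1 + (c • y).2 n = c * (y.1 + y.2 n) := by
    simp only [Prod.smul_fst, Prod.smul_snd, ZeroAtInftyContinuousMap.smul_apply, smul_eq_mul]; ring
  unfold N
  rw [this, map_smul, norm_smul, abs_mul, Real.norm_eq_abs]
  ring

lemma N_tendsto (y : E) : Tendsto (fun n => N n y) atTop (𝓝 |y.1|) := by
  have h1 := eps_tendsto
  have h2 := tendsto_apply y.2
  have h3 : Tendsto (fun n => N n y) atTop (𝓝 ((1 - 0) * |y.1 + 0| + 0 * ‖T y‖)) := by
    unfold N
    exact ((tendsto_const_nhds.sub h1).mul (tendsto_const_nhds.add h2).abs).add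
      (h1.mul tendsto_const_nhds)
  simpa using h3

lemma N_attained (y : E) : ∃ n, ∀ m, N m y ≤ N n y := by
  by_cases h : ∀ m, N m y ≤ N 0 y
  · exact ⟨0, h⟩
  · push Not at h
    obtain ⟨k, hk⟩ := h
    have h1 : |y.1| < N k y := by
      have := fst_le_T y
      rw [N_zero] at hk
      linarith
    have h2 : ∀ᶠ m in cocompact ℕ, N m y ≤ N k y := by
      rw [Filter.cocompact_eq_cofinite, Nat.cofinite_eq_atTop]
      exact ((N_tendsto y).eventually (gt_mem_nhds h1)).mono fun m hm => hm.le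
    exact Continuous.exists_forall_ge' continuous_of_discreteTopology k h2

def nrm (y : E) : ℝ := ⨆ n, N n y

lemma N_bdd (y : E) : BddAbove (Set.range fun n => N n y) :=
  ⟨3 * ‖y‖, by rintro _ ⟨n, rfl⟩; exact N_le n y⟩

lemma N_le_nrm (n : ℕ) (y : E) : N n y ≤ nrm y := le_ciSup (N_bdd y) n

lemma nrm_le {y : E} {C : ℝ} (h : ∀ n, N n y ≤ C) : nrm y ≤ C := ciSup_le h

lemma nrm_attained (y : E) : ∃ n, nrm y = N n y := by
  obtain ⟨n, hn⟩ := N_attained y
  exact ⟨n, le_antisymm (nrm_le hn) (N_le_nrm n y)⟩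

lemma nrm_nonneg (y : E) : 0 ≤ nrm y := (N_nonneg 0 y).trans (N_le_nrm 0 y)

lemma T_le_nrm (y : E) : ‖T y‖ ≤ nrm y := by rw [← N_zero]; exact N_le_nrm 0 y

lemma norm_le_nrm (y : E) : ‖y‖ ≤ 3 * nrm y := by
  have h0 := nrm_nonneg y
  have h1 : |y.1| ≤ nrm y := (fst_le_T y).trans (T_le_nrm y)
  rw [Prod.norm_def]
  apply max_le
  · rw [Real.norm_eq_abs]; linarith
  · apply norm_le_of _ (by positivity)
    intro k
    cases k with
    | zero => linarith [(snd_zero_le_T y).trans (T_le_nrm y)]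
    | succ k =>
      have h2 := N_le_nrm (k + 1) y
      have h3 := eps_succ k
      have h4 := eps_pos (k + 1)
      have h5 : |y.1 + y.2 (k + 1)| ≤ 2 * nrm y := by
        unfold N at h2
        have := abs_nonneg (y.1 + y.2 (k + 1))
        have := norm_nonneg (T y)
        nlinarith
      have h6 : |y.2 (k + 1)| ≤ |y.1 + y.2 (k + 1)| + |y.1| := by
        have := abs_sub (y.1 + y.2 (k + 1)) y.1
        simpa using this
      linarith

lemma nrm_le_norm (y : E) : nrm y ≤ 3 * ‖y‖ := nrm_le fun n => N_le n y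

lemma nrm_add (y z : E) : nrm (y + z) ≤ nrm y + nrm z :=
  nrm_le fun n => (N_add n y z).trans (add_le_add (N_le_nrm n y) (N_le_nrm n z))

lemma nrm_smul_le (c : ℝ) (y : E) : nrm (c • y) ≤ |c| * nrm y :=
  nrm_le fun n => by
    rw [N_smul]
    exact mul_le_mul_of_nonneg_left (N_le_nrm n y) (abs_nonneg c)

lemma nrm_neg (y : E) : nrm (-y) = nrm y := by
  unfold nrm
  congr 1
  ext n
  have h := N_smul n (-1) y
  have h2 : ((-1 : ℝ) • y) = -y := neg_one_smul ℝ y
  rw [h2] at h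
  simpa using h

def X : Type := E

instance : AddCommGroup X := inferInstanceAs (AddCommGroup E)
instance : Module ℝ X := inferInstanceAs (Module ℝ E)

def toE : X ≃ₗ[ℝ] E := LinearEquiv.refl ℝ E

def grpNorm : AddGroupNorm X where
  toFun y := nrm (toE y)
  map_zero' := by
    apply le_antisymm _ (nrm_nonneg _)
    have := nrm_le_norm (toE 0)
    simpa using this
  add_le' y z := by rw [map_add]; exact nrm_add _ _
  neg' y := by rw [map_neg]; exact nrm_neg _
  eq_zero_of_map_eq_zero' y h := by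
    have h1 := norm_le_nrm (toE y)
    rw [h] at h1
    have h2 : toE y = 0 := norm_le_zero_iff.mp (by linarith)
    simpa using h2

instance : NormedAddCommGroup X := grpNorm.toNormedAddCommGroup

lemma norm_def (y : X) : ‖y‖ = nrm (toE y) := rfl

instance : NormedSpace ℝ X where
  norm_smul_le c y := by
    rw [norm_def, norm_def, map_smul]
    exact nrm_smul_le c _

def toEL : X ≃L[ℝ] E :=
  toE.toContinuousLinearEquivOfBounds 3 3 (fun y => norm_le_nrm _)
    (fun y => by rw [norm_def, LinearEquiv.apply_symm_apply]; exact nrm_le_norm y)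

instance : CompleteSpace X :=
  (completeSpace_congr (e := toEL.toEquiv) toEL.isUniformEmbedding).mpr inferInstance

lemma strict (x y : X) (hx : ‖x‖ = 1) (hy : ‖y‖ = 1) (h : ‖x + y‖ = 2) : x = y := by
  rw [norm_def] at hx hy h
  rw [map_add] at h
  set a := toE x with ha
  set b := toE y with hb
  obtain ⟨n, hn⟩ := nrm_attained (a + b)
  have h1 := N_le_nrm n a
  have h2 := N_le_nrm n b
  have h3 := coord_add n a b
  have h4 : ‖T (a + b)‖ ≤ ‖T a‖ + ‖T b‖ := by rw [map_add]; exact norm_add_le _ _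
  have e1 := eps_pos n
  have e2 := eps_le_one n
  have h5 : ‖T a + T b‖ = ‖T a‖ + ‖T b‖ := by
    rw [← map_add]
    apply le_antisymm h4
    unfold N at hn h1 h2
    by_contra hc
    push Not at hc
    nlinarith
  have h6 : SameRay ℝ (T a) (T b) := sameRay_iff_norm_add.mpr h5
  have ha0 : T a ≠ 0 := by
    intro h0
    have : a = 0 := T_injective (by rw [h0, map_zero])
    have h7 : x = 0 := by simpa [ha] using this
    rw [ha, h7, ← norm_def, norm_zero] at hx
    exact zero_ne_one hx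
  have hb0 : T b ≠ 0 := by
    intro h0
    have : b = 0 := T_injective (by rw [h0, map_zero])
    have h7 : y = 0 := by simpa [hb] using this
    rw [hb, h7, ← norm_def, norm_zero] at hy
    exact zero_ne_one hy
  obtain ⟨r, s, hr, hs, hrs⟩ := h6.exists_pos ha0 hb0
  have h8 : r • a = s • b := T_injective (by rw [map_smul, map_smul, hrs])
  have h9 : r • x = s • y := toE.injective (by rw [map_smul, map_smul]; exact h8)
  have h10 : r = s := by
    have := congrArg norm h9
    rw [norm_smul, norm_smul, norm_def, norm_def, ← ha, ← hb, hx, hy, Real.norm_eq_abs,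
      Real.norm_eq_abs, abs_of_pos hr, abs_of_pos hs] at this
    linarith
  rw [h10] at h9
  exact smul_right_injective X hs.ne' h9

def bump (n : ℕ) : C₀(ℕ, ℝ) where
  toFun := Pi.single n 1
  continuous_toFun := continuous_of_discreteTopology
  zero_at_infty' := by
    rw [Filter.cocompact_eq_cofinite, Nat.cofinite_eq_atTop]
    apply tendsto_const_nhds.congr'
    filter_upwards [eventually_gt_atTop n] with m hm
    rw [Pi.single_eq_of_ne hm.ne']

lemma bump_apply (n m : ℕ) : bump n m = if m = n then 1 else 0 := by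
  change (Pi.single n (1 : ℝ) : ℕ → ℝ) m = _
  rw [Pi.single_apply]

def e (n : ℕ) : E := (0, bump n)

lemma T_e (n : ℕ) : ‖T (e n)‖ = (1 / 2) ^ n := by
  have : T (e n) = lp.single 2 (n + 1) ((1 / 2 : ℝ) ^ n) := by
    ext k
    rw [T_apply, lp.single_apply, Pi.single_apply]
    cases k with
    | zero => simp [tf, e]
    | succ k =>
      by_cases h : k = n
      · simp [tf, e, bump_apply, h]
      · simp [tf, e, bump_apply, h]
  rw [this, lp.norm_single (by simp), Real.norm_eq_abs, abs_of_pos (by positivity)]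

def one : E := (1, 0)

lemma T_one : ‖T one‖ = 1 := by
  have : T one = lp.single 2 0 (1 : ℝ) := by
    ext k
    rw [T_apply, lp.single_apply, Pi.single_apply]
    cases k with
    | zero => simp [tf, one]
    | succ k => simp [tf, one]
  rw [this, lp.norm_single (by simp), norm_one]

lemma nrm_one : nrm one = 1 := by
  have : ∀ n, N n one = 1 := fun n => by
    unfold N
    rw [T_one]
    simp [one]
  apply le_antisymm (nrm_le fun n => (this n).le)
  rw [← this 0]
  exact N_le_nrm 0 one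

lemma sum_apply' (s : Finset ℕ) (v : ℕ → C₀(ℕ, ℝ)) (k : ℕ) :
    (∑ i ∈ s, v i) k = ∑ i ∈ s, v i k := by
  induction s using Finset.induction_on with
  | empty => simp
  | insert a s ha ih =>
    rw [Finset.sum_insert ha, Finset.sum_insert ha, ZeroAtInftyContinuousMap.add_apply, ih]

lemma weak_null (g : E →L[ℝ] ℝ) : Tendsto (fun n => g (e n)) atTop (𝓝 0) := by
  have h : ∀ s : Finset ℕ, ∑ i ∈ s, |g (e i)| ≤ ‖g‖ := by
    intro s
    set u : E := ∑ i ∈ s, (SignType.sign (g (e i)) : ℝ) • e i with hu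
    have h1 : g u = ∑ i ∈ s, |g (e i)| := by
      rw [hu, map_sum]
      refine Finset.sum_congr rfl fun i _ => ?_
      rw [map_smul, smul_eq_mul, sign_mul_self]
    have h2 : ‖u‖ ≤ 1 := by
      have a1 : u.1 = 0 := by
        rw [hu, Prod.fst_sum]
        simp [e]
      have a2 : ∀ k, |u.2 k| ≤ 1 := by
        intro k
        have a3 : u.2 k = ∑ i ∈ s, (SignType.sign (g (e i)) : ℝ) * (if k = i then 1 else 0) := by
          rw [hu, Prod.snd_sum, sum_apply']
          refine Finset.sum_congr rfl fun i _ => ?_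
          simp [e, bump_apply]
        rw [a3]
        simp only [mul_ite, mul_one, mul_zero, Finset.sum_ite_eq]
        split_ifs
        · rcases (SignType.sign (g (e k))) with _ | _ | _ <;> simp
        · simp
      rw [Prod.norm_def, a1, norm_zero]
      exact max_le zero_le_one (norm_le_of _ zero_le_one a2)
    have h3 := g.le_opNorm u
    rw [← h1]
    calc g u ≤ ‖g u‖ := Real.le_norm_self _
      _ ≤ ‖g‖ * ‖u‖ := h3
      _ ≤ ‖g‖ * 1 := by gcongr
      _ = ‖g‖ := mul_one _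
  have h2 : Summable fun i => |g (e i)| := summable_of_sum_le (fun i => abs_nonneg _) h
  exact (tendsto_zero_iff_abs_tendsto_zero _).mpr h2.tendsto_atTop_zero

lemma perturb (y : E) (s : ℝ) (hs : nrm y ≤ s) (n : ℕ) :
    nrm (y - (s + y.1 + y.2 n) • e n) ≤ s + |s + y.1 + y.2 n| * (1 / 2) ^ n := by
  have hs0 : 0 ≤ s := (nrm_nonneg y).trans hs
  set c := s + y.1 + y.2 n with hc
  have hT : ‖T (y - c • e n)‖ ≤ ‖T y‖ + |c| * (1 / 2) ^ n := by
    rw [map_sub, map_smul]
    refine (norm_sub_le _ _).trans ?_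
    rw [norm_smul, T_e, Real.norm_eq_abs]
  have hp : 0 ≤ |c| * (1 / 2) ^ n := by positivity
  apply nrm_le
  intro m
  have e1 := eps_pos m
  have e2 := eps_le_one m
  have h1 := N_le_nrm m y
  have h2 := T_le_nrm y
  have hco : (y - c • e n).1 + (y - c • e n).2 m = y.1 + y.2 m - c * (if m = n then 1 else 0) := by
    simp [e, bump_apply]
    ring
  unfold N at h1 ⊢
  rw [hco]
  by_cases h : m = n
  · subst h
    have : y.1 + y.2 m - c * (if m = m then 1 else 0) = -s := by simp [hc]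
    rw [this, abs_neg, abs_of_nonneg hs0]
    nlinarith
  · rw [if_neg h, mul_zero, sub_zero]
    nlinarith

lemma far (y : E) (s : ℝ) (hs0 : 0 ≤ s) (n : ℕ) :
    (1 - eps n) * (1 + s) ≤ nrm (one - (y - (s + y.1 + y.2 n) • e n)) := by
  refine le_trans ?_ (N_le_nrm n _)
  have hco : (one - (y - (s + y.1 + y.2 n) • e n)).1 + (one - (y - (s + y.1 + y.2 n) • e n)).2 n
      = 1 + s := by
    simp [e, bump_apply, one]
  unfold N
  rw [hco, abs_of_nonneg (by linarith)]
  have := eps_pos n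
  have := norm_nonneg (T (one - (y - (s + y.1 + y.2 n) • e n)))
  nlinarith

theorem daugavet (f : StrongDual ℝ X) (hf : ‖f‖ = 1) (α : ℝ) (hα : 0 < α) (ε : ℝ) (hε : 0 < ε) :
    ∃ y : X, ‖y‖ ≤ 1 ∧ 1 - α < f y ∧ 2 - ε < ‖toE.symm one - y‖ := by
  obtain ⟨y0, hy0, hfy0⟩ : ∃ y0 : X, ‖y0‖ < 1 ∧ 1 - α < f y0 := by
    obtain ⟨z, hz, hfz⟩ := f.exists_lt_apply_of_lt_opNorm (r := 1 - α) (by linarith)
    rw [Real.norm_eq_abs] at hfz
    rcases le_total 0 (f z) with h | h
    · exact ⟨z, hz, by rwa [abs_of_nonneg h] at hfz⟩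
    · exact ⟨-z, by rwa [norm_neg], by rwa [abs_of_nonpos h, ← map_neg] at hfz⟩
  set y := toE y0 with hy
  set s := max (nrm y) (1 - ε / 2) with hs
  have hs1 : s < 1 := max_lt hy0 (by linarith)
  have hs2 : nrm y ≤ s := le_max_left _ _
  have hs3 : 1 - ε / 2 ≤ s := le_max_right _ _
  have hs0 : 0 ≤ s := (nrm_nonneg y).trans hs2
  have hc : Tendsto (fun n => s + y.1 + y.2 n) atTop (𝓝 (s + y.1 + 0)) :=
    tendsto_const_nhds.add (tendsto_apply y.2)
  have hp : Tendsto (fun n : ℕ => ((1 : ℝ) / 2) ^ n) atTop (𝓝 0) :=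
    tendsto_pow_atTop_nhds_zero_of_lt_one (by norm_num) (by norm_num)
  have h1 : Tendsto (fun n => s + |s + y.1 + y.2 n| * (1 / 2) ^ n) atTop
      (𝓝 (s + |s + y.1 + 0| * 0)) := tendsto_const_nhds.add (hc.abs.mul hp)
  set g : E →L[ℝ] ℝ := f.comp toEL.symm.toContinuousLinearMap with hg
  have h2 : Tendsto (fun n => f y0 - (s + y.1 + y.2 n) * g (e n)) atTop
      (𝓝 (f y0 - (s + y.1 + 0) * 0)) := tendsto_const_nhds.sub (hc.mul (weak_null g))
  have h3 : Tendsto (fun n => (1 - eps n) * (1 + s)) atTop (𝓝 ((1 - 0) * (1 + s))) :=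
    (tendsto_const_nhds.sub eps_tendsto).mul tendsto_const_nhds
  have a1 := h1.eventually (gt_mem_nhds (show s + |s + y.1 + 0| * 0 < 1 by linarith))
  have a2 := h2.eventually (lt_mem_nhds (show 1 - α < f y0 - (s + y.1 + 0) * 0 by linarith))
  have a3 := h3.eventually (lt_mem_nhds (show 2 - ε < (1 - 0) * (1 + s) by linarith))
  obtain ⟨n, b1, b2, b3⟩ := (a1.and (a2.and a3)).exists
  refine ⟨toE.symm (y - (s + y.1 + y.2 n) • e n), ?_, ?_, ?_⟩
  · rw [norm_def, LinearEquiv.apply_symm_apply]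
    exact (perturb y s hs2 n).trans b1.le
  · have : f (toE.symm (y - (s + y.1 + y.2 n) • e n)) = f y0 - (s + y.1 + y.2 n) * g (e n) := by
      rw [map_sub, map_smul, map_sub, map_smul, hy, LinearEquiv.symm_apply_apply]
      rfl
    rw [this]
    exact b2
  · rw [← map_sub, norm_def, LinearEquiv.apply_symm_apply]
    exact b3.trans_le (far y s hs0 n)

lemma norm_one' : ‖toE.symm one‖ = 1 := by
  rw [norm_def, LinearEquiv.apply_symm_apply, nrm_one]

end Pool.Agent.Lib.MP_7c844e_an
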